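import Pool.Agent.Lib.MP_6d445e_gt.Iface

/-!
# PRLIM: preservation of good sets at limits
-/

universe u v w

open Cardinal Filter

namespace Pool.Agent.Lib.MP_6d445e_gt.H22

open Pool.Agent.Lib.MP_100a6c_lc
open Pool.Agent.Lib.MP_c5d73d_lc.F (pr)
open Pool.Agent.Lib.MP_e6fef2_lc
open Pool.Agent.Lib.MP_e6fef2_lc.H57
open Pool.Agent.Lib.MP_e6fef2_lc.H15 (ev_countable ev_const ev_normal ev_fun ev_fun2 ev_sets ev_all
  supp Es mem_Es le_sSup_Es pick pick_spec)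

section basic

variable {A C : Type u} [CompleteBooleanAlgebra A] [CompleteBooleanAlgebra C]

theorem adn_lt (x y : ℕ → A) {n k : ℕ} (h : n < k) : adn x y k n = x n := by
  unfold adn
  have h1 : ¬ k ≤ n.unpair.1 := fun h2 => absurd (h2.trans (Nat.unpair_left_le n)) (by omega)
  simp [h1]

theorem le_adn (x y : ℕ → A) (n k : ℕ) : x n ≤ adn x y k n := le_sup_left

theorem adn_le (x y : ℕ → A) (n k : ℕ) : adn x y k n ≤ x n ⊔ y n :=
  sup_le_sup_left (iSup_le fun _ => le_rfl) _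

theorem le_adn' (x y : ℕ → A) {p k : ℕ} (i : ℕ) (h : k ≤ p) :
    y (Nat.pair p i) ≤ adn x y k (Nat.pair p i) := by
  unfold adn
  refine le_sup_of_le_right (le_iSup_of_le ?_ le_rfl)
  simpa using h

theorem map_cut {f : A → C} (hf : IsCE f) (Y : ℕ → A) :
    f (cut Y) = cut (fun n => f (Y n)) := by
  unfold cut
  simp only [ce_iInf hf, ce_iSup hf, hf.compl]

theorem ae_disn (n : ℕ) (x Y : ℕ → A) : ∀ᶠ g in ae A,
    disn n x Y ∈ g ↔ ∀ p, n ≤ p → ∀ i, x (Nat.pair p i) ∈ g → Y (Nat.pair p i) ∉ g := by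
  unfold disn
  filter_upwards [ae_iInf fun p => ⨅ _ : n ≤ p, ⨅ i, (x (Nat.pair p i) ⊓ Y (Nat.pair p i))ᶜ,
    ae_all fun p => ae_iInf fun (_ : n ≤ p) => ⨅ i, (x (Nat.pair p i) ⊓ Y (Nat.pair p i))ᶜ,
    ae_all fun p => ae_iInf fun i => (x (Nat.pair p i) ⊓ Y (Nat.pair p i))ᶜ] with g h1 h2 h3
  rw [h1]
  refine forall_congr' fun p => ?_
  rw [h2]
  refine forall_congr' fun hp => ?_
  rw [h3]
  refine forall_congr' fun i => ?_
  rw [g.mem_compl, g.mem_inf]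
  tauto

theorem disn_mem {g : Ult A} {n : ℕ} {x Y : ℕ → A} (h : disn n x Y ∈ g) {p i : ℕ} (hp : n ≤ p)
    (hx : x (Nat.pair p i) ∈ g) : Y (Nat.pair p i) ∉ g := by
  intro hY
  have h1 : disn n x Y ≤ (x (Nat.pair p i) ⊓ Y (Nat.pair p i))ᶜ :=
    (iInf_le _ p).trans ((iInf_le _ hp).trans (iInf_le _ i))
  exact g.mem_compl.1 (g.mono h1 h) (g.mem_inf.2 ⟨hx, hY⟩)

theorem dis_mem {g : Ult A} {x Y : ℕ → A} (h : dis x Y ∈ g) {n : ℕ} (hx : x n ∈ g) :
    Y n ∉ g := by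
  have := disn_mem (p := n.unpair.1) (i := n.unpair.2) h (Nat.zero_le _) (by simpa using hx)
  simpa using this

theorem inj_count {N : Set El.{u}} (hN : N.Countable) (T : Type u) :
    {t : T | In N t}.Countable := by
  refine Set.Countable.preimage_of_injOn (f := fun t : T => (⟨T, t⟩ : El.{u})) hN ?_
  intro x _ y _ hxy
  exact eq_of_heq (Sigma.mk.inj hxy).2

theorem ae_gen {N : Set El.{u}} (hN : N.Countable) : ∀ᶠ g in ae A,
    (∀ D : Set A, In N D → sSup D = ⊤ → ∃ d ∈ D, In N d ∧ d ∈ g) → gen A N ∈ g := by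
  have hc : Countable {D : Set A // In N D ∧ sSup D = ⊤} :=
    ((inj_count hN (Set A)).mono fun D hD => hD.1).to_subtype
  obtain ⟨φ, hφ⟩ : ∃ φ : {D : Set A // In N D ∧ sSup D = ⊤} → A,
    φ = fun D => ⨆ (d : A) (_ : d ∈ D.1) (_ : In N d), d := ⟨_, rfl⟩
  filter_upwards [ae_iInf φ] with g h1 h2
  have h3 : (⨅ D, φ D) ≤ gen A N := by
    unfold gen
    refine le_iInf fun D => le_iInf fun hD => le_iInf fun hD' => ?_
    refine (iInf_le φ ⟨D, hD, hD'⟩).trans ?_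
    rw [hφ]
  refine g.mono h3 (h1.2 fun D => ?_)
  obtain ⟨d, hd, hd', hg⟩ := h2 D.1 D.2.1 D.2.2
  rw [hφ]
  exact g.mono (le_iSup_of_le d (le_iSup_of_le hd (le_iSup_of_le hd' le_rfl))) hg

theorem ae_gc {N : Set El.{u}} (hN : N.Countable) (Y : ℕ → A) : ∀ᶠ g in ae A,
    gen A N ∈ g → cut Y ∈ g → (∀ x : ℕ → A, In N x → Sl x →
      ∃ n, ∀ p, n ≤ p → ∀ i, x (Nat.pair p i) ∈ g → Y (Nat.pair p i) ∉ g) → gc N Y ∈ g := by
  have hc : Countable {x : ℕ → A // In N x ∧ Sl x} :=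
    ((inj_count hN (ℕ → A)).mono fun D hD => hD.1).to_subtype
  obtain ⟨φ, hφ⟩ : ∃ φ : {x : ℕ → A // In N x ∧ Sl x} → A,
    φ = fun x => ⨆ n, disn n x.1 Y := ⟨_, rfl⟩
  have hd : ∀ᶠ g in ae A, ∀ (x : {x : ℕ → A // In N x ∧ Sl x}) (n : ℕ), disn n x.1 Y ∈ g ↔
      ∀ p, n ≤ p → ∀ i, x.1 (Nat.pair p i) ∈ g → Y (Nat.pair p i) ∉ g :=
    ae_all fun x => ae_all fun n => ae_disn n x.1 Y
  filter_upwards [ae_iInf φ, hd] with g h1 h2 h3 h4 h5
  unfold gc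
  refine g.mem_inf.2 ⟨g.mem_inf.2 ⟨h3, h4⟩, ?_⟩
  have h6 : (⨅ x, φ x) ≤ ⨅ x : ℕ → A, ⨅ _ : In N x, ⨅ _ : Sl x, ⨆ n, disn n x Y := by
    refine le_iInf fun x => le_iInf fun hx => le_iInf fun hx' => ?_
    refine (iInf_le φ ⟨x, hx, hx'⟩).trans ?_
    rw [hφ]
  refine g.mono h6 (h1.2 fun x => ?_)
  obtain ⟨n, hn⟩ := h5 x.1 x.2.1 x.2.2
  rw [hφ]
  exact g.mono (le_iSup (fun n => disn n x.1 Y) n) ((h2 x n).2 hn)

/-- Elements below an element of `D` which decide `x n` for `n ≤ m`. -/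
def Dc (D : Set C) (x : ℕ → C) (m : ℕ) : Set C :=
  {d | (∃ y ∈ D, d ≤ y) ∧ ∀ n ≤ m, d ≤ x n ∨ d ≤ (x n)ᶜ}

theorem sSup_Dc {D : Set C} (hD : sSup D = ⊤) (x : ℕ → C) (m : ℕ) : sSup (Dc D x m) = ⊤ := by
  classical
  rw [eq_top_iff]
  refine le_of_ae ?_
  filter_upwards [ae_of_sSup hD] with g hg _
  obtain ⟨y, hy, hyg⟩ := hg
  obtain ⟨v, hv⟩ : ∃ v : ℕ → C, v = fun n => if x n ∈ g then x n else (x n)ᶜ := ⟨_, rfl⟩
  have hv' : ∀ n, v n ∈ g := by
    intro n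
    rw [hv]
    dsimp only
    split_ifs with h
    · exact h
    · exact g.mem_compl.2 h
  have h1 : y ⊓ ⨅ n ∈ Finset.range (m + 1), v n ∈ g :=
    g.mem_inf.2 ⟨hyg, (g.mem_finset_iInf _ _).2 fun n _ => hv' n⟩
  refine g.mono (le_sSup ⟨⟨y, hy, inf_le_left⟩, fun n hn => ?_⟩) h1
  have h2 : y ⊓ ⨅ n ∈ Finset.range (m + 1), v n ≤ v n :=
    inf_le_right.trans ((iInf_le _ n).trans (iInf_le _ (Finset.mem_range.2 (by omega))))
  rw [hv] at h2 ⊢
  dsimp only at h2 ⊢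
  by_cases h : x n ∈ g
  · rw [if_pos h] at h2
    exact Or.inl h2
  · rw [if_neg h] at h2
    exact Or.inr h2

/-- The next interpretation. -/
theorem exists_xh (hLB : LbStatement.{u}) (hITP : ItpStatement.{u}) (hSLA : SlaStatement.{u})
    {e : A → C} (he : IsCE e) (c : C) (x : ℕ → C) (y : ℕ → A) :
    ∃ x' : ℕ → A, (Sl x → Sl x') ∧ prj e c ≤ itp e (prj e) c x x' ∧
      ∀ l, prj e (c ⊓ agr e y x l) ≤ agr (fun a : A => a) y x' l := by
  obtain ⟨-, -, i3, -, i5⟩ := hITP A C e he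
  obtain ⟨-, -, -, -, -, -, -, p8, p9⟩ := i5 (prj e) i3
  obtain ⟨-, s2, -, s4, -, -⟩ := hSLA A
  obtain ⟨-, t2, -, -, -, -⟩ := hSLA C
  obtain ⟨z, hz1, hz2⟩ := hLB A C e he (prj e) i3 c x y
  refine ⟨fun n => z n ⊓ prj e c, ?_, ?_, ?_⟩
  · rintro ⟨r, hr⟩
    refine ⟨r, ?_⟩
    have h1 := p9 c x z r (t2 r r ⊤ c x (fun _ => le_rfl) le_top hr)
    have h2 := s2 r r _ (prj e c) z (fun _ => le_rfl) hz1 h1
    unfold SlOn at h2 ⊢
    filter_upwards [h2] with g hg _ p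
    by_cases h : prj e c ∈ g
    · refine le_trans (Set.encard_le_encard ?_) (hg h p)
      intro i hi
      exact (g.mem_inf.1 hi).1
    · have h3 : {i | z (Nat.pair p i) ⊓ prj e c ∈ g} = ∅ := by
        ext i
        refine ⟨fun h4 => (h (g.mem_inf.1 h4).2).elim, fun h4 => h4.elim⟩
      rw [h3, Set.encard_empty]
      exact bot_le
  · have h1 := p8 c x z (fun n => z n ⊓ prj e c) (prj e c) fun n => by
      rw [inf_comm (z n), ← inf_assoc, inf_idem]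
    have h2 : prj e c ≤ prj e c ⊓ itp e (prj e) c x z := le_inf le_rfl hz1
    rw [h1] at h2
    exact h2.trans inf_le_right
  · intro l
    have h1 : prj e (c ⊓ agr e y x l) ≤ agr (fun a : A => a) y z l ⊓ prj e c :=
      le_inf (hz2 l) (prj_mono he inf_le_left)
    refine h1.trans ?_
    unfold agr
    refine le_iInf fun n => le_iInf fun hn => ?_
    have h2 : (⨅ n, ⨅ _ : n < l, (y n ⊓ z n) ⊔ ((y n)ᶜ ⊓ (z n)ᶜ)) ≤
        (y n ⊓ z n) ⊔ ((y n)ᶜ ⊓ (z n)ᶜ) := (iInf_le _ n).trans (iInf_le _ hn)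
    refine (inf_le_inf_right _ h2).trans ?_
    rw [inf_sup_right]
    refine sup_le_sup ?_ ?_
    · rw [inf_assoc]
    · refine inf_le_left.trans (inf_le_inf_left _ ?_)
      rw [compl_inf]
      exact le_sup_left

end basic

section

variable {L : Type u} [LinearOrder L] {A : L → Type u} [∀ i, CompleteBooleanAlgebra (A i)]
  {f : ∀ i j, A i → A j} {C : Type u} [CompleteBooleanAlgebra C] {e : ∀ i, A i → C}

open Classical in
/-- The family for the sequence lemma. -/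
noncomputable def Wf (e : ∀ i, A i → C) (j : L) (m : ℕ) (c : C) (x : ℕ → C) (z : ℕ → A j)
    (y : ℕ → C) (D : Set C) (k : ℕ) (t : C × (ℕ → A j)) : A j :=
  if t.1 ∈ Es e (Dc D (adn x y k) m) ∧ t.1 ≤ c ⊓ agr (e j) z x k then
    itp (e j) (prj (e j)) t.1 (adn x y k) t.2 else ⊥

open Classical in
/-- The next interpretation. -/
noncomputable def Xh {B : Type u} [CompleteBooleanAlgebra B] (e : B → C) (c : C) (x : ℕ → C)
    (y : ℕ → B) : ℕ → B :=
  if h : ∃ x' : ℕ → B, (Sl x → Sl x') ∧ prj e c ≤ itp e (prj e) c x x' ∧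
      ∀ l, prj e (c ⊓ agr e y x l) ≤ agr (fun a : B => a) y x' l then h.choose else y

theorem Xh_spec (hLB : LbStatement.{u}) (hITP : ItpStatement.{u}) (hSLA : SlaStatement.{u})
    {B : Type u} [CompleteBooleanAlgebra B] {e : B → C} (he : IsCE e) (c : C) (x : ℕ → C)
    (y : ℕ → B) : (Sl x → Sl (Xh e c x y)) ∧ prj e c ≤ itp e (prj e) c x (Xh e c x y) ∧
      ∀ l, prj e (c ⊓ agr e y x l) ≤ agr (fun a : B => a) y (Xh e c x y) l := by
  have h := exists_xh hLB hITP hSLA he c x y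
  unfold Xh
  rw [dif_pos h]
  exact h.choose_spec

variable (f e) in
/-- The closure properties of `N`. -/
structure Clo (N : Set El.{u}) : Prop where
  cnt : N.Countable
  pres : ∀ j, In N j → ∀ j', In N j' → j ≤ j' → ∀ (Y : ℕ → A j) (c : A j') (x : ℕ → A j')
    (z : ℕ → A j), In N c → In N x → Sl x → In N z →
    gc N Y ⊓ itp (f j j') (prj (f j j')) c x z ⊓ dis z Y ≤
      prj (f j j') (gc N (fun n => f j j' (Y n)) ⊓ c ⊓ dis x fun n => f j j' (Y n))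
  seq : ∀ j, In N j → ∀ (w : ℕ → C × (ℕ → A j) → A j) (b : ℕ → C × (ℕ → A j) → ℕ → A j)
    (z : ℕ → A j) (r : ℕ → ℕ), In N w → In N b → In N z →
    (∀ k t, w k t ≤ agr (fun a : A j => a) z (b k t) k) → (∀ k t, SlOn r (w k t) (b k t)) →
    ∀ Y : ℕ → A j, ∀ᶠ g in ae (A j), gc N Y ∈ g → dis z Y ∈ g → (∀ k, (⨆ t, w k t) ∈ g) →
      ∀ m, ∃ k, m ≤ k ∧ ∃ t, In N t ∧ w k t ∈ g ∧ dis (b k t) Y ∈ g
  wf : ∀ j, In N j → ∀ m : ℕ, ∀ c : C, In N c → ∀ x : ℕ → C, In N x → ∀ z : ℕ → A j, In N z →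
    ∀ y : ℕ → C, In N y → ∀ D : Set C, In N D → In N (Wf e j m c x z y D)
  bf : ∀ j, In N j → In N (fun (_ : ℕ) (t : C × (ℕ → A j)) => t.2)
  pj : ∀ j, In N j → ∀ c : C, In N c → In N (prj (e j) c)
  sp : ∀ c : C, In N c → In N (supp e c)
  st : ∀ s : Set L, In N s → s.Countable → ∀ i ∈ s, In N i
  pk : ∀ (D : Set C) (d : C), In N D → In N d → In N (pick D d)
  xh : ∀ j, In N j → ∀ c : C, In N c → ∀ x : ℕ → C, In N x → ∀ y : ℕ → A j, In N y →
    In N (Xh (e j) c x y)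
  cf : ∀ j, In N j → ∀ j', In N j' → ∀ z : ℕ → A j, In N z → In N (fun n => f j j' (z n))
  ad : ∀ x : ℕ → C, In N x → ∀ y : ℕ → C, In N y → ∀ k : ℕ, In N (adn x y k)
  fs : ∀ j, In N j → ∀ t : C × (ℕ → A j), In N t → In N t.1 ∧ In N t.2

theorem ev_clo (hSEQ : SeqStatement.{u}) (hPR : ∀ i j, i ≤ j → PRES (f i j)) :
    ∀ᶠ N in club, Clo f e N := by
  have e1 : ∀ᶠ N in club, ∀ j, In N j → ∀ j', In N j' → j ≤ j' → ∀ (Y : ℕ → A j) (c : A j')
      (x : ℕ → A j') (z : ℕ → A j), In N c → In N x → Sl x → In N z →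
      gc N Y ⊓ itp (f j j') (prj (f j j')) c x z ⊓ dis z Y ≤
        prj (f j j') (gc N (fun n => f j j' (Y n)) ⊓ c ⊓ dis x fun n => f j j' (Y n)) := by
    refine ev_normal _ fun i => ev_normal _ fun j => ?_
    by_cases hij : i ≤ j
    · filter_upwards [hPR i j hij] with N hN _
      exact hN
    · exact Eventually.of_forall fun N h => absurd h hij
  have e2 : ∀ᶠ N in club, ∀ j, In N j → ∀ (w : ℕ → C × (ℕ → A j) → A j)
      (b : ℕ → C × (ℕ → A j) → ℕ → A j)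
      (z : ℕ → A j) (r : ℕ → ℕ), In N w → In N b → In N z →
      (∀ k t, w k t ≤ agr (fun a : A j => a) z (b k t) k) → (∀ k t, SlOn r (w k t) (b k t)) →
      ∀ Y : ℕ → A j, ∀ᶠ g in ae (A j), gc N Y ∈ g → dis z Y ∈ g → (∀ k, (⨆ t, w k t) ∈ g) →
        ∀ m, ∃ k, m ≤ k ∧ ∃ t, In N t ∧ w k t ∈ g ∧ dis (b k t) Y ∈ g :=
    ev_normal _ fun j => hSEQ (A j) (C × (ℕ → A j))
  have e3 : ∀ᶠ N in club, ∀ j, In N j → ∀ m : ℕ, ∀ c : C, In N c → ∀ x : ℕ → C, In N x →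
      ∀ z : ℕ → A j, In N z →
      ∀ y : ℕ → C, In N y → ∀ D : Set C, In N D → In N (Wf e j m c x z y D) :=
    ev_normal _ fun j => ev_all _ fun m => ev_normal _ fun c => ev_normal _ fun x =>
      ev_normal _ fun z => ev_normal _ fun y => ev_normal _ fun D => ev_const _
  have e4 : ∀ᶠ N in club, ∀ j, In N j → In N (fun (_ : ℕ) (t : C × (ℕ → A j)) => t.2) :=
    ev_normal _ fun j => ev_const _
  have e5 : ∀ᶠ N in club, ∀ j, In N j → ∀ c : C, In N c → In N (prj (e j) c) :=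
    ev_normal _ fun j => ev_fun fun c => prj (e j) c
  have e6 : ∀ᶠ N in club, ∀ c : C, In N c → In N (supp e c) := ev_fun fun c => supp e c
  have e7 : ∀ᶠ N in club, ∀ (D : Set C) (d : C), In N D → In N d → In N (pick D d) :=
    ev_fun2 fun D d => pick D d
  have e8 : ∀ᶠ N in club, ∀ j, In N j → ∀ c : C, In N c → ∀ x : ℕ → C, In N x →
      ∀ y : ℕ → A j, In N y → In N (Xh (e j) c x y) :=
    ev_normal _ fun j => ev_normal _ fun c => ev_normal _ fun x => ev_normal _ fun y => ev_const _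
  have e9 : ∀ᶠ N in club, ∀ j, In N j → ∀ j', In N j' → ∀ z : ℕ → A j, In N z →
      In N (fun n => f j j' (z n)) :=
    ev_normal _ fun j => ev_normal _ fun j' => ev_normal _ fun z => ev_const _
  have e10 : ∀ᶠ N in club, ∀ x : ℕ → C, In N x → ∀ y : ℕ → C, In N y → ∀ k : ℕ,
      In N (adn x y k) :=
    ev_normal _ fun x => ev_normal _ fun y => ev_all _ fun k => ev_const _
  have e11 : ∀ᶠ N in club, ∀ j, In N j → ∀ t : C × (ℕ → A j), In N t → In N t.1 ∧ In N t.2 :=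
    ev_normal _ fun j => ev_normal _ fun t => (ev_const t.1).and (ev_const t.2)
  filter_upwards [ev_countable, e1, e2, e3, e4, e5, e6, ev_sets L, e7, e8, e9, e10, e11]
    with N h0 h1 h2 h3 h4 h5 h6 h6' h7 h8 h9 h10 h11
  exact ⟨h0, h1, h2, h3, h4, h5, h6, h6', h7, h8, h9, h10, h11⟩

theorem itp_le {B : Type u} [CompleteBooleanAlgebra B] {e : B → C} (he : IsCE e) {c : C}
    {x : ℕ → C} {z : ℕ → B} {n : ℕ} (h : c ≤ x n) : itp e (prj e) c x z ≤ z n := by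
  refine (iInf_le _ (n + 1)).trans ((prj_le he _ _).2 ?_)
  have h1 : agr e z x (n + 1) ≤ (e (z n) ⊓ x n) ⊔ ((e (z n))ᶜ ⊓ (x n)ᶜ) :=
    (iInf_le _ n).trans (iInf_le _ (Nat.lt_succ_self n))
  refine (inf_le_inf h h1).trans ?_
  rw [inf_sup_left]
  refine sup_le (inf_le_right.trans inf_le_left) ?_
  rw [inf_left_comm, inf_compl_eq_bot, inf_bot_eq]
  exact bot_le

theorem step (hLB : LbStatement.{u}) (hITP : ItpStatement.{u}) (hITP2 : Itp2Statement.{u})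
    (hSLA : SlaStatement.{u}) (hch : IsCh A f) (htop : IsTop A f e) (hDP : DP A e)
    {N : Set El.{u}} (hN : Clo f e N) {j j' : L} (hj : In N j) (hj' : In N j') (hjj : j ≤ j')
    (Y : ℕ → A j) (m : ℕ) {c : C} (hc : In N c) {x : ℕ → C} (hx : In N x) (hSx : Sl x)
    {z : ℕ → A j} (hz : In N z) {y : ℕ → C} (hy : In N y) (hSy : Sl y) {D : Set C} (hD : In N D)
    (hDt : sSup D = ⊤) :
    gc N Y ⊓ itp (e j) (prj (e j)) c x z ⊓ dis z Y ≤ prj (f j j')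
      (⨆ s : C × (ℕ → C) × (ℕ → A j'), ⨆ _ : (In N s.1 ∧ In N s.2.1 ∧ Sl s.2.1 ∧ In N s.2.2) ∧
        s.1 ≤ c ∧ ∃ k, s.2.1 = adn x y k ∧ s.1 ∈ Es e (Dc D s.2.1 m),
        gc N (fun n => f j j' (Y n)) ⊓ itp (e j') (prj (e j')) s.1 s.2.1 s.2.2 ⊓
          dis s.2.2 (fun n => f j j' (Y n))) := by
  have hf := hch.ce j j' hjj
  obtain ⟨-, -, i3, -, i5⟩ := hITP (A j) C (e j) (htop.ce j)
  obtain ⟨-, -, -, -, -, p6, -, -, p9⟩ := i5 (prj (e j)) i3
  obtain ⟨-, s2, s3, s4, -, -⟩ := hSLA C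
  obtain ⟨r', hr'⟩ := hSx
  obtain ⟨ry, hry⟩ := hSy
  have hSl : ∀ k, SlOn (fun p => r' p + ry p) ⊤ (adn x y k) := fun k =>
    s4 _ _ _ _ (fun n => inf_le_right.trans (adn_le x y n k)) (s3 r' ry ⊤ x y hr' hry)
  have hagr : ∀ (k : ℕ), agr (e j) z (adn x y k) k = agr (e j) z x k := by
    intro k
    unfold agr
    refine iInf_congr fun n => iInf_congr fun hn => ?_
    rw [adn_lt x y hn]
  refine le_of_ae ?_
  filter_upwards [hN.seq j hj (Wf e j m c x z y D) (fun _ t => t.2) z (fun p => r' p + ry p)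
    (hN.wf j hj m c hc x hx z hz y hy D hD) (hN.bf j hj) hz (fun k t => by
      unfold Wf
      split_ifs with h
      · exact p6 t.1 (adn x y k) t.2 z k (by rw [hagr]; exact h.2.trans inf_le_right)
      · exact bot_le) (fun k t => by
      unfold Wf
      split_ifs with h
      · exact p9 t.1 (adn x y k) t.2 _ (s2 _ _ ⊤ t.1 _ (fun _ => le_rfl) le_top (hSl k))
      · exact Eventually.of_forall fun g hg => (g.not_bot hg).elim) Y] with g hg hu
  obtain ⟨hu1, hu2⟩ := g.mem_inf.1 hu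
  obtain ⟨hu3, hu4⟩ := g.mem_inf.1 hu1
  obtain ⟨k, -, t, ht, hw, hd⟩ := hg hu3 hu2 (fun k => by
    have h1 : prj (e j) (c ⊓ agr (e j) z x k) ∈ g := g.mono (iInf_le _ k) hu4
    refine g.mono ?_ h1
    refine (prj_mono (htop.ce j) (le_sSup_Es hDP (sSup_Dc hDt (adn x y k) m) _)).trans ?_
    rw [prj_iSup (htop.ce j)]
    refine iSup_le fun c' => ?_
    rw [prj_iSup (htop.ce j)]
    refine iSup_le fun h => ?_
    obtain ⟨zt, hzt, -⟩ := hLB (A j) C (e j) (htop.ce j) (prj (e j)) i3 c' (adn x y k) z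
    refine le_iSup_of_le (c', zt) ?_
    unfold Wf
    rw [if_pos h]
    exact hzt) 0
  unfold Wf at hw
  split_ifs at hw with h
  · obtain ⟨ht1, ht2⟩ := hN.fs j hj t ht
    obtain ⟨q1, q2, q3⟩ :=
      Xh_spec hLB hITP hSLA (htop.ce j') t.1 (adn x y k) (fun n => f j j' (t.2 n))
    have hec : (fun a => e j' (f j j' a)) = e j := funext (htop.comp j j' hjj)
    have h4 := (hITP2 (A j) (A j') C (f j j') (e j') hf (htop.ce j')).1 t.1 (adn x y k) t.2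
      (Xh (e j') t.1 (adn x y k) (fun n => f j j' (t.2 n))) (fun l => q3 l)
    rw [hec] at h4
    have hadN : In N (adn x y k) := hN.ad x hx y hy k
    have hxhN : In N (Xh (e j') t.1 (adn x y k) (fun n => f j j' (t.2 n))) :=
      hN.xh j' hj' t.1 ht1 _ hadN _ (hN.cf j hj j' hj' t.2 ht2)
    have h5 := hN.pres j hj j' hj' hjj Y (prj (e j') t.1) _ t.2 (hN.pj j' hj' t.1 ht1) hxhN
      (q1 ⟨_, hSl k⟩) ht2
    have h6 := g.mem_inf.2 ⟨g.mem_inf.2 ⟨hu3, g.mono h4 hw⟩, hd⟩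
    refine g.mono (h5.trans (prj_mono hf ?_)) h6
    refine le_iSup_of_le (t.1, adn x y k, Xh (e j') t.1 (adn x y k) (fun n => f j j' (t.2 n)))
      (le_iSup_of_le ⟨⟨ht1, hadN, ⟨_, hSl k⟩, hxhN⟩, h.2.trans inf_le_left, k, rfl, h.1⟩ ?_)
    exact inf_le_inf_right _ (inf_le_inf_left _ q2)
  · exact (g.not_bot hw).elim

theorem core (hLB : LbStatement.{u}) (hITP : ItpStatement.{u}) (hITP2 : Itp2Statement.{u})
    (hSLA : SlaStatement.{u}) (hAF : AfStatement.{u, u}) (hch : IsCh A f) (htop : IsTop A f e)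
    (hTP : TP A f e) (hDP : DP A e) {N : Set El.{u}} (hN : Clo f e N) (hT : In N ({⊤} : Set C))
    (j : ℕ → L) (hj : Monotone j) (hjN : ∀ n, In N (j n)) (hjc : ∀ s, In N s → ∃ n, s ≤ j n)
    (Y : ℕ → A (j 0)) (c : C) (x : ℕ → C) (z : ℕ → A (j 0)) (hc : In N c) (hx : In N x)
    (hSx : Sl x) (hz : In N z) :
    gc N Y ⊓ itp (e (j 0)) (prj (e (j 0))) c x z ⊓ dis z Y ≤ prj (e (j 0))
      (gc N (fun n => e (j 0) (Y n)) ⊓ c ⊓ dis x fun n => e (j 0) (Y n)) := by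
  obtain ⟨D, hD⟩ := ((inj_count hN.cnt (Set C)).mono
    fun D (hD : D ∈ {D : Set C | In N D ∧ sSup D = ⊤}) => hD.1).exists_eq_range ⟨{⊤}, hT, by simp⟩
  have hDN : ∀ n, In N (D n) ∧ sSup (D n) = ⊤ := fun n => by
    have : D n ∈ {D : Set C | In N D ∧ sSup D = ⊤} := hD ▸ ⟨n, rfl⟩
    exact this
  obtain ⟨y, hy⟩ := ((inj_count hN.cnt (ℕ → C)).mono
    fun D (hD : D ∈ {y : ℕ → C | In N y ∧ Sl y}) => hD.1).exists_eq_range ⟨x, hx, hSx⟩
  have hyN : ∀ n, In N (y n) ∧ Sl (y n) := fun n => by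
    have : y n ∈ {y : ℕ → C | In N y ∧ Sl y} := hy ▸ ⟨n, rfl⟩
    exact this
  let X : ℕ → Type u := fun n => {s : C × (ℕ → C) × (ℕ → A (j n)) //
    In N s.1 ∧ In N s.2.1 ∧ Sl s.2.1 ∧ In N s.2.2}
  have hX : ∀ n, Countable (X n) := by
    intro n
    have c1 : Countable {t : C | In N t} := (inj_count hN.cnt C).to_subtype
    have c2 : Countable {t : ℕ → C | In N t} := (inj_count hN.cnt _).to_subtype
    have c3 : Countable {t : ℕ → A (j n) | In N t} := (inj_count hN.cnt _).to_subtype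
    refine Function.Injective.countable (f := fun s : X n =>
      ((⟨s.1.1, s.2.1⟩, ⟨s.1.2.1, s.2.2.1⟩, ⟨s.1.2.2, s.2.2.2.2⟩) :
        {t : C | In N t} × {t : ℕ → C | In N t} × {t : ℕ → A (j n) | In N t})) ?_
    rintro ⟨⟨a1, a2, a3⟩, ha⟩ ⟨⟨b1, b2, b3⟩, hb⟩ hab
    simp only [Prod.mk.injEq, Subtype.mk.injEq] at hab
    obtain ⟨rfl, rfl, rfl⟩ := hab
    rfl
  let U : ∀ n, X n → A (j n) := fun n s => gc N (fun k => f (j 0) (j n) (Y k)) ⊓
    itp (e (j n)) (prj (e (j n))) s.1.1 s.1.2.1 s.1.2.2 ⊓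
      dis s.1.2.2 (fun k => f (j 0) (j n) (Y k))
  let E : ∀ n, X n → X (n + 1) → Prop := fun n s s' =>
    s'.1.1 ≤ s.1.1 ∧ ∃ k, s'.1.2.1 = adn s.1.2.1 (y n) k ∧
      s'.1.1 ∈ Es e (Dc (D n) s'.1.2.1 n)
  have hYc : ∀ n k, f (j n) (j (n + 1)) (f (j 0) (j n) (Y k)) = f (j 0) (j (n + 1)) (Y k) :=
    fun n k => hch.comp _ _ _ (hj (Nat.zero_le n)) (hj (Nat.le_succ n)) _
  have hstep : ∀ n s, U n s ≤ prj (f (j n) (j (n + 1))) (⨆ s', ⨆ _ : E n s s', U (n + 1) s') := by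
    intro n s
    have h1 := step hLB hITP hITP2 hSLA hch htop hDP hN (hjN n) (hjN (n + 1))
      (hj (Nat.le_succ n)) (fun k => f (j 0) (j n) (Y k)) n s.2.1 s.2.2.1 s.2.2.2.1 s.2.2.2.2
      (hyN n).1 (hyN n).2 (hDN n).1 (hDN n).2
    refine h1.trans (prj_mono (hch.ce _ _ (hj (Nat.le_succ n))) ?_)
    refine iSup_le fun t => iSup_le fun ht => ?_
    simp only [hYc]
    exact le_iSup_of_le (⟨t, ht.1⟩ : X (n + 1)) (le_iSup_of_le ht.2 le_rfl)
  obtain ⟨p, hp, hae⟩ := hAF (fun n => A (j n)) (fun n => f (j n) (j (n + 1))) C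
    (fun n => e (j n)) (fun n => hch.ce _ _ (hj (Nat.le_succ n))) (fun n => htop.ce _)
    (fun n a => htop.comp _ _ (hj (Nat.le_succ n)) a) (fun q hq => hTP j hj q hq) X U E hstep
    ⟨(c, x, z), hc, hx, hSx, hz⟩ _ le_rfl
  have hU0 : U 0 ⟨(c, x, z), hc, hx, hSx, hz⟩ =
      gc N Y ⊓ itp (e (j 0)) (prj (e (j 0))) c x z ⊓ dis z Y := by
    simp only [U, hch.id]
  rw [← hU0, ← hp]
  refine prj_mono (htop.ce _) (le_of_ae ?_)
  have hsup : ∀ᶠ h in ae C, ∀ c' : {c' : C // In N c'}, (supp e c'.1).Countable →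
      (∀ s ∈ supp e c'.1, e s (prj (e s) c'.1) ∈ h) →
      (⨅ s ∈ supp e c'.1, e s (prj (e s) c'.1)) ∈ h := by
    have hcc : Countable {c' : C // In N c'} := (inj_count hN.cnt C).to_subtype
    refine ae_all fun c' => ?_
    by_cases hcnt : (supp e c'.1).Countable
    · have hcc' := hcnt.to_subtype
      filter_upwards [ae_iInf fun s : supp e c'.1 => e s.1 (prj (e s.1) c'.1)] with h hh _ hs
      rw [iInf_subtype']
      exact hh.2 fun s => hs s.1 s.2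
    · exact Eventually.of_forall fun h hh => absurd hh hcnt
  filter_upwards [hae, ae_gen (A := C) hN.cnt, ae_gc hN.cnt (fun n => e (j 0) (Y n)), hsup,
    ae_disn 0 x (fun n => e (j 0) (Y n))] with h h1 h2 h3 h4 h5 hph
  obtain ⟨ξ, hξ0, hξ⟩ := h1 hph
  have hU : ∀ n, e (j n) (U n (ξ n)) ∈ h := fun n => (hξ n).2
  have hUU : ∀ n, (e (j n) (gc N (fun k => f (j 0) (j n) (Y k))) ∈ h ∧
      e (j n) (itp (e (j n)) (prj (e (j n))) (ξ n).1.1 (ξ n).1.2.1 (ξ n).1.2.2) ∈ h) ∧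
      e (j n) (dis (ξ n).1.2.2 (fun k => f (j 0) (j n) (Y k))) ∈ h := by
    intro n
    have h6 := hU n
    simp only [U] at h6
    rw [ce_inf (htop.ce _), ce_inf (htop.ce _), h.mem_inf, h.mem_inf] at h6
    exact h6
  have hca : ∀ m l, m ≤ l → (ξ l).1.1 ≤ (ξ m).1.1 := fun m l hml =>
    antitone_nat_of_succ_le (f := fun n => (ξ n).1.1) (fun n => (hξ n).1.1) hml
  have hxm : ∀ k m l, m ≤ l → (ξ m).1.2.1 k ≤ (ξ l).1.2.1 k := fun k m l hml =>
    monotone_nat_of_le_succ (f := fun n => (ξ n).1.2.1 k) (fun n => by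
      obtain ⟨-, k', h6, -⟩ := (hξ n).1
      rw [h6]
      exact le_adn _ _ _ _) hml
  have hprj : ∀ n, e (j n) (prj (e (j n)) (ξ n).1.1) ∈ h := by
    intro n
    obtain ⟨-, -, i3, -, i5⟩ := hITP (A (j n)) C (e (j n)) (htop.ce _)
    obtain ⟨-, -, p3, -⟩ := i5 (prj (e (j n))) i3
    exact h.mono (ce_mono (htop.ce _) (p3 _ _ _)) (hUU n).1.2
  have hcm : ∀ m, (ξ (m + 1)).1.1 ∈ h := by
    intro m
    obtain ⟨-, -, -, -, hcnt, -, heq⟩ := (hξ m).1
    have h6 := h4 ⟨(ξ (m + 1)).1.1, (ξ (m + 1)).2.1⟩ hcnt (fun s hs => by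
      have hsN : In N s := hN.st _ (hN.sp _ (ξ (m + 1)).2.1) hcnt s hs
      obtain ⟨l, hl⟩ := hjc s hsN
      have hsl : s ≤ j (max l (m + 1)) := hl.trans (hj (le_max_left _ _))
      refine h.mono ?_ (hprj (max l (m + 1)))
      refine (ce_mono (htop.ce _) (prj_mono (htop.ce _)
        (hca (m + 1) (max l (m + 1)) (le_max_right _ _)))).trans ?_
      have g1 : prj (e s) (ξ (m + 1)).1.1 =
          prj (f s (j (max l (m + 1)))) (prj (e (j (max l (m + 1)))) (ξ (m + 1)).1.1) := by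
        have g2 : e s = fun y => e (j (max l (m + 1))) (f s (j (max l (m + 1))) y) := by
          funext y
          exact (htop.comp _ _ hsl y).symm
        rw [g2, prj_comp (hch.ce _ _ hsl) (htop.ce _)]
      dsimp only
      rw [g1, ← htop.comp _ _ hsl]
      exact ce_mono (htop.ce _) (le_prj (hch.ce _ _ hsl) _))
    dsimp only at h6
    rw [← heq] at h6
    exact h6
  have hdj : ∀ m n, (ξ m).1.2.1 n ∈ h → e (j 0) (Y n) ∉ h := by
    intro m n hxn hYn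
    obtain ⟨-, k, -, ⟨d, ⟨-, hd⟩, hd'⟩, -⟩ := (hξ (max m n)).1
    have h6 : (ξ (max m n + 1)).1.2.1 n ∈ h :=
      h.mono (hxm n m (max m n + 1) ((le_max_left _ _).trans (Nat.le_succ _))) hxn
    rcases hd n (le_max_right _ _) with h7 | h7
    · have h8 := h.mono (ce_mono (htop.ce _) (itp_le (htop.ce (j (max m n + 1)))
        (z := (ξ (max m n + 1)).1.2.2) (hd'.trans h7))) (hUU (max m n + 1)).1.2
      have h9 := dis_mem (g := h.pull (htop.ce (j (max m n + 1)))) (hUU (max m n + 1)).2 (n := n) h8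
      apply h9
      change e (j (max m n + 1)) (f (j 0) (j (max m n + 1)) (Y n)) ∈ h
      rw [htop.comp _ _ (hj (Nat.zero_le _))]
      exact hYn
    · exact h.mem_compl.1 (h.mono (hd'.trans h7) (hcm (max m n))) h6
  have hgen : gen C N ∈ h := by
    refine h2 fun D' hD' hDt' => ?_
    obtain ⟨m, rfl⟩ : D' ∈ Set.range D := hD ▸ ⟨hD', hDt'⟩
    obtain ⟨-, k, -, ⟨d, ⟨⟨d', hd1, hd2⟩, -⟩, hd3⟩, -⟩ := (hξ m).1
    obtain ⟨p1, p2⟩ := pick_spec (D := D m) (d := (ξ (m + 1)).1.1) ⟨d', hd1, hd3.trans hd2⟩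
    exact ⟨_, p1, hN.pk _ _ hD' (ξ (m + 1)).2.1, h.mono p2 (hcm m)⟩
  have hcut : cut (fun n => e (j 0) (Y n)) ∈ h := by
    rw [← map_cut (htop.ce (j 0))]
    have h6 := (hUU 0).1.1
    simp only [hch.id] at h6
    refine h.mono (ce_mono (htop.ce _) ?_) h6
    exact inf_le_left.trans inf_le_right
  refine h.mem_inf.2 ⟨h.mem_inf.2 ⟨h3 hgen hcut fun x' hx' hSx' => ?_, ?_⟩, ?_⟩
  · obtain ⟨m, rfl⟩ : x' ∈ Set.range y := hy ▸ ⟨hx', hSx'⟩
    obtain ⟨-, k, hk, -⟩ := (hξ m).1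
    refine ⟨k, fun p hp i hi => hdj (m + 1) _ ?_⟩
    rw [hk]
    exact h.mono (le_adn' _ _ _ hp) hi
  · have h6 := h.mono (hca 0 1 (Nat.zero_le _)) (hcm 0)
    rw [hξ0] at h6
    exact h6
  · refine h5.2 fun p _ i hi => hdj 0 _ ?_
    rw [hξ0]
    exact hi

end

theorem prlim (hLB : LbStatement.{u}) (hITP : ItpStatement.{u}) (hITP2 : Itp2Statement.{u})
    (hSLA : SlaStatement.{u}) (hSEQ : SeqStatement.{u}) (hAF : AfStatement.{u, u}) :
    PrlimStatement.{u} := by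
  intro L _ A _ f C _ e hch htop hTP hDP hPR i
  filter_upwards [ev_clo (e := e) hSEQ hPR, ev_const i, ev_const ({⊤} : Set C)]
    with N hN hi hT Y c x z hc hx hSx hz
  obtain ⟨l, hl⟩ := (inj_count hN.cnt L).exists_eq_range ⟨i, hi⟩
  have hlN : ∀ n, In N (l n) := fun n => by
    have : l n ∈ {t : L | In N t} := hl ▸ ⟨n, rfl⟩
    exact this
  let j : ℕ → L := fun n => Nat.rec i (fun n x => max x (l n)) n
  have hjs : ∀ n, j (n + 1) = max (j n) (l n) := fun n => rfl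
  have hj : Monotone j := monotone_nat_of_le_succ fun n => by rw [hjs]; exact le_max_left _ _
  have hjN : ∀ n, In N (j n) := by
    intro n
    induction n with
    | zero => exact hi
    | succ n ih =>
      rw [hjs]
      rcases max_choice (j n) (l n) with h | h
      · rw [h]; exact ih
      · rw [h]; exact hlN n
  have hjc : ∀ x : L, In N x → ∃ n, x ≤ j n := by
    intro x hx
    obtain ⟨n, rfl⟩ : x ∈ Set.range l := hl ▸ hx
    exact ⟨n + 1, by rw [hjs]; exact le_max_right _ _⟩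
  exact core hLB hITP hITP2 hSLA hAF hch htop hTP hDP hN hT j hj hjN hjc Y c x z hc hx hSx hz

end Pool.Agent.Lib.MP_6d445e_gt.H22
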